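import Pool.Agent.H62.TD.Fin

/-!
MP_2fc877_gt, Q1 and Q2: two-distance simplices with normal homogeneous vertex set in which each
vertex has a bounded number of vertices at the shorter distance.
-/

namespace Pool.Agent.Results.MP_2fc877_gt.BoundedValency

open Pool.Agent.H89.TDS Pool.Agent.H62.TD

/-- There is a function `C` such that the following holds for all `n` and `k`.
(1) Let `v₀, …, vₙ` be the vertices of a two-distance simplex of `ℝⁿ` whose vertex set is normal
homogeneous, with exactly `k` vertices at the shorter distance from `v₀`. In the graph of the shorter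
distance at most `(k + r).choose r` vertices are within `r` steps of a given one, and the vertices are
divided into blocks of a common size `b ≤ C k`, `b` a divisor of `n + 1`, modulo which each component
of this graph is a Cayley graph of one abelian group with at most `k` generators (`HasAbelianBlocks`).
(2) If all prime divisors of `n + 1` are bigger than `C k`, then a two-distance simplex of `ℝⁿ` with
`k` vertices at the shorter distance from `v₀` has a normal homogeneous vertex set iff it has a
Clifford-Wolf homogeneous vertex set iff it is given by a circulant graph of an abelian group of order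
`n + 1`: the distance is `c` along the edges and `c t` otherwise, with `t > 1` and
`t² + (t² - 1) ∑ χ(s) > 0` for every character `χ`.
(3) All data in (2) occur. -/
theorem result : ∃ C : ℕ → ℕ,
    (∀ (n k : ℕ) (v : Fin (n + 1) → EuclideanSpace ℝ (Fin n)), AffineIndependent ℝ v →
      IsTwoDistance (Set.range v) → IsNormalHomogeneous (Set.range v) →
      {j | (shortGraph v).Adj 0 j}.ncard = k →
      (∀ i r, {j | ∃ w : (shortGraph v).Walk i j, w.length ≤ r}.ncard ≤ (k + r).choose r) ∧
      ∃ b, b ∣ n + 1 ∧ b ≤ C k ∧ HasAbelianBlocks v b k) ∧
    (∀ n k : ℕ, (∀ p, p.Prime → p ∣ n + 1 → C k < p) →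
      ∀ v : Fin (n + 1) → EuclideanSpace ℝ (Fin n), AffineIndependent ℝ v →
      IsTwoDistance (Set.range v) → {j | (shortGraph v).Adj 0 j}.ncard = k →
      (IsNormalHomogeneous (Set.range v) ↔ IsCWHomogeneous (Set.range v)) ∧
      (IsNormalHomogeneous (Set.range v) ↔
        ∃ (B : Type) (_ : AddCommGroup B) (S : Set B) (e : B ≃ Fin (n + 1)) (c t : ℝ),
          0 < c ∧ CharAdmissible S t ∧
          Follows (SimpleGraph.circulantGraph S) c t (fun x => v (e x)))) ∧
    (∀ (n : ℕ) (B : Type) [AddCommGroup B] (S : Set B) (e : B ≃ Fin (n + 1)) (c t : ℝ),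
      SimpleGraph.circulantGraph S ≠ ⊥ → SimpleGraph.circulantGraph S ≠ ⊤ → 0 < c →
      CharAdmissible S t → ∃ v : Fin (n + 1) → EuclideanSpace ℝ (Fin n),
        AffineIndependent ℝ v ∧ IsTwoDistance (Set.range v) ∧ IsCWHomogeneous (Set.range v) ∧
        IsNormalHomogeneous (Set.range v) ∧
        Follows (SimpleGraph.circulantGraph S) c t (fun x => v (e x)) ∧
        {j | (shortGraph v).Adj 0 j}.ncard = ((S ∪ -S) \ {0}).ncard) :=
  bounded_valency

end Pool.Agent.Results.MP_2fc877_gt.BoundedValency
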