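import Pool.Agent.H89.TDS.CW

/-!
MP_2fc877_gt, Q1: complete parametrisation of the two-distance homogeneous simplices whose vertex
set is normal homogeneous.
-/

namespace Pool.Agent.Results.MP_2fc877_gt.NormalClassification

open Pool.Agent.H89.TDS

/-- Let `v₀, …, vₙ` be points of `ℝⁿ`. They are the vertices of a two-distance simplex whose vertex
set is normal homogeneous if and only if there are a finite group `G`, a subgroup `H` with `n + 1`
cosets, a conjugation invariant set `S` in `G`, whose coset graph is neither empty nor complete,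
a number `c > 0` and an admissible `t`, such that, under some bijection of the points with `G ⧸ H`,
the distance is `c` along the edges of the coset graph and `c t` otherwise. Conversely every such datum
is realised by a simplex of `ℝⁿ`. -/
theorem result (n : ℕ) :
    (∀ v : Fin (n + 1) → EuclideanSpace ℝ (Fin n),
      (AffineIndependent ℝ v ∧ IsTwoDistance (Set.range v) ∧ IsNormalHomogeneous (Set.range v)) ↔
      ∃ (G : Type) (_ : Group G) (_ : Finite G) (H : Subgroup G) (S : Set G)
        (e : G ⧸ H ≃ Fin (n + 1)) (c t : ℝ),
        (∀ g : G, ∀ s ∈ S, g * s * g⁻¹ ∈ S) ∧ cosetGraph H S ≠ ⊥ ∧ cosetGraph H S ≠ ⊤ ∧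
        0 < c ∧ Admissible (cosetGraph H S) t ∧ Follows (cosetGraph H S) c t (fun p => v (e p))) ∧
    (∀ (G : Type) [Group G] [Finite G] (H : Subgroup G) (S : Set G) (e : G ⧸ H ≃ Fin (n + 1))
      (c t : ℝ), 0 < c → Admissible (cosetGraph H S) t →
      ∃ v : Fin (n + 1) → EuclideanSpace ℝ (Fin n), Follows (cosetGraph H S) c t (fun p => v (e p))) := by
  constructor
  · intro v
    constructor
    · rintro ⟨hv, h2, hN⟩
      obtain ⟨G, hG, hf, H, S, e, c, t, hS, hb, ht, hc, h1t, hF⟩ :=
        exists_normal_model hv.injective h2 hN
      refine ⟨G, hG, hf, H, S, e, c, t, hS, hb, ht, hc, ?_, hF⟩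
      rw [← affine_iff_admissible hS hF hc h1t]
      exact hv.comp_embedding e.toEmbedding
    · rintro ⟨G, hG, hf, H, S, e, c, t, hS, hb, ht, hc, hA, hF⟩
      have h1t := hA.1
      have hv : AffineIndependent ℝ (fun p => v (e p)) := (affine_iff_admissible hS hF hc h1t).2 hA
      have h2 := twoDistance_of_follows hF hc h1t hb ht
      have hN := normal_of_model hS hF hc h1t
      rw [range_comp_equiv v e] at h2 hN
      refine ⟨?_, h2, hN⟩
      have := hv.comp_embedding e.symm.toEmbedding
      have h3 : (fun p => v (e p)) ∘ e.symm.toEmbedding = v := by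
        ext i
        simp
      rw [h3] at this
      exact this
  · intro G _ _ H S e c t hc hA
    obtain ⟨v, -, hF⟩ := exists_model_simplex n e hc hA
    refine ⟨fun i => v (e.symm i), ?_⟩
    have : (fun p => (fun i => v (e.symm i)) (e p)) = v := by
      ext p
      simp
    rw [this]
    exact hF

end Pool.Agent.Results.MP_2fc877_gt.NormalClassification
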