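import Pool.Agent.H89.TDS.Char

/-!
MP_2fc877_gt, Q1 and Q2 in all dimensions `p - 1` and `p² - 1`, `p` prime.
-/

namespace Pool.Agent.Results.MP_2fc877_gt.PrimeSquareDimension

open Pool.Agent.H89.TDS

/-- Let `n + 1 = p^k` with `p` prime and `k ≤ 2`. Every two-distance homogeneous simplex of `ℝⁿ` has a
vertex set which is Clifford-Wolf homogeneous, hence normal homogeneous, and these simplices are
exactly the ones given by circulant graphs of the abelian groups `B` of order `n + 1`: the distance is
`c` along the edges of the graph with connection set `S ⊂ B` and `c t` otherwise, where `t > 1` and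
`t² + (t² - 1) ∑ χ(s) > 0` for every character `χ` of `B`; every such datum occurs. -/
theorem result (p k n : ℕ) (hp : p.Prime) (hk : k ≤ 2) (hn : n + 1 = p ^ k) :
    (∀ v : Fin (n + 1) → EuclideanSpace ℝ (Fin n), AffineIndependent ℝ v →
      IsTwoDistance (Set.range v) →
      (IsHomogeneous (Set.range v) ↔ IsCWHomogeneous (Set.range v)) ∧
      (IsHomogeneous (Set.range v) ↔ IsNormalHomogeneous (Set.range v))) ∧
    (∀ v : Fin (n + 1) → EuclideanSpace ℝ (Fin n),
      (AffineIndependent ℝ v ∧ IsTwoDistance (Set.range v) ∧ IsHomogeneous (Set.range v)) ↔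
      ∃ (B : Type) (_ : AddCommGroup B) (S : Set B) (e : B ≃ Fin (n + 1)) (c t : ℝ),
        SimpleGraph.circulantGraph S ≠ ⊥ ∧ SimpleGraph.circulantGraph S ≠ ⊤ ∧ 0 < c ∧
        CharAdmissible S t ∧ Follows (SimpleGraph.circulantGraph S) c t (fun x => v (e x))) ∧
    (∀ (B : Type) [AddCommGroup B] (S : Set B) (e : B ≃ Fin (n + 1)) (c t : ℝ), 0 < c →
      CharAdmissible S t → ∃ v : Fin (n + 1) → EuclideanSpace ℝ (Fin n),
        Follows (SimpleGraph.circulantGraph S) c t (fun x => v (e x))) := by
  have hpf : Fact p.Prime := ⟨hp⟩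
  have hc : Nat.card (Fin (n + 1)) = p ^ k := by rw [Nat.card_eq_fintype_card, Fintype.card_fin, hn]
  refine ⟨?_, ?_, ?_⟩
  · intro v hv _
    have : Finite (Set.range v) := Set.finite_range v
    have : Nonempty (Set.range v) := ⟨⟨v 0, Set.mem_range_self _⟩⟩
    refine ⟨⟨fun h => cw_of_prime_sq p k hk hc hv.injective h, homogeneous_of_cw⟩,
      ⟨fun h => normal_of_cw (cw_of_prime_sq p k hk hc hv.injective h), ?_⟩⟩
    intro h x y
    obtain ⟨f, hf, -⟩ := (normalHomogeneous_iff.1 h) x y
    exact ⟨f, hf⟩
  · intro v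
    constructor
    · rintro ⟨hv, h2, hN⟩
      obtain ⟨B, hB, S, e, c, t, hb, ht, hc0, h1t, hF⟩ :=
        exists_circulant_model p k hk hc hv.injective h2 hN
      have : Finite B := Finite.of_equiv _ e.symm
      refine ⟨B, hB, S, e, c, t, hb, ht, hc0, ?_, hF⟩
      rw [← charAdmissible_iff, ← affine_iff_admissible_circulant hF hc0 h1t]
      exact hv.comp_embedding e.toEmbedding
    · rintro ⟨B, hB, S, e, c, t, hb, ht, hc0, hA, hF⟩
      have : Finite B := Finite.of_equiv _ e.symm
      have h1t := hA.1
      rw [← charAdmissible_iff] at hA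
      have hv : AffineIndependent ℝ (fun x => v (e x)) :=
        (affine_iff_admissible_circulant hF hc0 h1t).2 hA
      have h2 := twoDistance_of_follows hF hc0 h1t hb ht
      have hN := cw_of_circulant hF hc0 h1t
      rw [range_comp_equiv v e] at h2 hN
      refine ⟨?_, h2, homogeneous_of_cw hN⟩
      have := hv.comp_embedding e.symm.toEmbedding
      have h3 : (fun x => v (e x)) ∘ e.symm.toEmbedding = v := by
        ext i
        simp
      rw [h3] at this
      exact this
  · intro B _ S e c t hc0 hA
    classical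
    have : Finite B := Finite.of_equiv _ e.symm
    have : Fintype B := Fintype.ofFinite _
    rw [← charAdmissible_iff, admissible_iff] at hA
    have hcard : Fintype.card B = n + 1 := by
      rw [Fintype.card_congr e, Fintype.card_fin]
    obtain ⟨v, -, hd⟩ := exists_simplex (SimpleGraph.circulantGraph S) n hcard c t hc0 hA.1 hA.2
    refine ⟨fun i => v (e.symm i), ?_⟩
    have h3 : (fun x => (fun i => v (e.symm i)) (e x)) = v := by
      ext x
      simp
    rw [h3]
    exact (follows_iff _ c t v).2 hd

end Pool.Agent.Results.MP_2fc877_gt.PrimeSquareDimension
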